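import Pool.Agent.helper55.NK.Spec

/-!
# Project NK, row CHA: every strict chain
-/

set_option autoImplicit false

namespace Pool.Agent.helper96.NK

open Pool.Agent.NK Finset

theorem CHA (hSIN : SIN_stmt) (hTWO : TWO_stmt) (hMON : MON_stmt) : CHA_stmt := by
  intro a b k C hk hab hC hch
  rcases C.eq_empty_or_nonempty with hE | hE
  · rw [hE, sum_empty]
    exact Nat.zero_le _
  · obtain ⟨m, hm, hmax⟩ := exists_max_image C (fun c => c.1) hE
    have hlt : ∀ c ∈ C.erase m, c.1 < m.1 ∧ c.2 < m.2 := by
      intro c hc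
      rw [mem_erase] at hc
      rcases hch c hc.2 m hm hc.1 with h | h
      · exact h
      · have := hmax c hc.2
        omega
    obtain ⟨hm1, hm2, hmk⟩ := hC m hm
    rw [← add_sum_erase C (fun c => a.choose c.1 * b.choose c.2) hm]
    rcases (C.erase m).eq_empty_or_nonempty with hD | ⟨c, hc⟩
    · rw [hD, sum_empty, add_zero]
      exact hSIN a b m.1 m.2 k hm1 hm2 hmk hab
    · have h1 := hlt c hc
      have h2 := hC c (mem_of_mem_erase hc)
      have h3 : IsCh (C.erase m) := fun c hc d hd hne =>
        hch c (mem_of_mem_erase hc) d (mem_of_mem_erase hd) hne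
      have h4 := hTWO a b m.1 m.2 (C.erase m) (by omega) (by omega) (by omega) h3 (by
        intro c hc
        have h5 := hC c (mem_of_mem_erase hc)
        have h6 := hlt c hc
        exact ⟨h5.1, h5.2.1, h6.1, h6.2⟩)
      exact h4.trans (hMON (a + b) (m.1 + m.2) k (by omega) hmk hab)

end Pool.Agent.helper96.NK
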